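import Mathlib
import Pool.Agent.Q34.Red

set_option autoImplicit false

namespace Pool.Agent.Q34.WD.D2c11a

open Finset Pool.Agent.Helper857.Pad Pool.Agent.Q34 Pool.Agent.Q34.Red
open scoped Nat

/-- `s_n = (6n)! n! / (2 (2n+1) (3n)! (2n)!^2)` -/
def s (n : ℕ) : ℚ :=
  (((6 * n)! : ℕ) : ℚ) * ((n ! : ℕ) : ℚ) /
    (2 * (2 * n + 1) * (((3 * n)! : ℕ) : ℚ) * (((2 * n)! : ℕ) : ℚ) ^ 2)

lemma s_rec (k : ℕ) : (2 * (k : ℚ) + 3) * (k + 1) * s (k + 1) =
    6 * (6 * k + 1) * (6 * k + 5) * s k := by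
  unfold s
  have e6 : ((6 * (k + 1))! : ℕ) = (6 * k + 6) * (6 * k + 5) * (6 * k + 4) * (6 * k + 3) *
      (6 * k + 2) * (6 * k + 1) * (6 * k)! := by
    rw [show 6 * (k + 1) = 6 * k + 5 + 1 by ring]
    simp only [Nat.factorial_succ]
    ring
  have e3 : ((3 * (k + 1))! : ℕ) = (3 * k + 3) * (3 * k + 2) * (3 * k + 1) * (3 * k)! := by
    rw [show 3 * (k + 1) = 3 * k + 2 + 1 by ring]
    simp only [Nat.factorial_succ]
    ring
  have e2 : ((2 * (k + 1))! : ℕ) = (2 * k + 2) * (2 * k + 1) * (2 * k)! := by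
    rw [show 2 * (k + 1) = 2 * k + 1 + 1 by ring]
    simp only [Nat.factorial_succ]
    ring
  rw [e6, e3, e2, Nat.factorial_succ]
  have h6 : (((6 * k)! : ℕ) : ℚ) ≠ 0 := by exact_mod_cast (6 * k).factorial_ne_zero
  have h3 : (((3 * k)! : ℕ) : ℚ) ≠ 0 := by exact_mod_cast (3 * k).factorial_ne_zero
  have h2 : (((2 * k)! : ℕ) : ℚ) ≠ 0 := by exact_mod_cast (2 * k).factorial_ne_zero
  have a1 : (k : ℚ) + 1 ≠ 0 := by positivity
  have a2 : 2 * (k : ℚ) + 1 ≠ 0 := by positivity
  have a3 : 2 * (k : ℚ) + 3 ≠ 0 := by positivity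
  have a4 : 3 * (k : ℚ) + 1 ≠ 0 := by positivity
  have a5 : 3 * (k : ℚ) + 2 ≠ 0 := by positivity
  push_cast
  field_simp
  ring

/-- `T_k = s_k / 108^k` -/
def T (k : ℕ) : ℚ := s k / 108 ^ k

lemma T_rec (k : ℕ) : 18 * (2 * (k : ℚ) + 3) * (k + 1) * T (k + 1) =
    (6 * k + 1) * (6 * k + 5) * T k := by
  unfold T
  have := s_rec k
  rw [pow_succ]
  field_simp
  linear_combination 18 * this

lemma T_zero : T 0 = 1 / 2 := by simp [T, s]

variable {p : ℕ} [hp : Fact p.Prime]

/-- the middle term -/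
lemma s_mid {h : ℕ} (hh : p = 2 * h + 1) (h2 : 2 ≤ h) : s h ∈ Zp p ∧ R p (s h) * 4 = -1 := by
  obtain ⟨g, rfl⟩ : ∃ g, h = g + 1 := ⟨h - 1, by omega⟩
  have hpr := hp.out
  set A := (p + 1).ascFactorial (2 * g + 2) with hA
  set B := (2 * p + 1).ascFactorial (2 * g) with hB
  set C := (p + 1).ascFactorial g with hC
  have f6 : (6 * (g + 1))! = 2 * p ^ 2 * (2 * g + 2)! * A * B := by
    have e1 : (2 * p)! * B = (2 * p + 2 * g)! := Nat.factorial_mul_ascFactorial _ _
    have e2 : (p)! * A = (p + (2 * g + 2))! := Nat.factorial_mul_ascFactorial _ _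
    have e3 : 6 * (g + 1) = 2 * p + 2 * g := by omega
    have e4 : (2 * p)! = 2 * p * (p + (2 * g + 2))! := by
      rw [show 2 * p = (p + (2 * g + 2)) + 1 by omega, Nat.factorial_succ]
    have e5 : (p)! = p * (2 * g + 2)! := by
      rw [hh, show 2 * (g + 1) + 1 = (2 * g + 2) + 1 by ring, Nat.factorial_succ]
    rw [e3, ← e1, e4, ← e2, e5]
    ring
  have f3 : (3 * (g + 1))! = p * (2 * g + 2)! * C := by
    have e2 : (p)! * C = (p + g)! := Nat.factorial_mul_ascFactorial _ _
    have e5 : (p)! = p * (2 * g + 2)! := by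
      rw [hh, show 2 * (g + 1) + 1 = (2 * g + 2) + 1 by ring, Nat.factorial_succ]
    rw [show 3 * (g + 1) = p + g by omega, ← e2, e5]
  have hfac : ∀ n, n < p → ¬ p ∣ n ! := fun n hn hd => by
    have := (hpr.dvd_factorial).mp hd
    omega
  have hasc : ∀ (a n : ℕ), (((a * p + 1).ascFactorial n : ℕ) : ZMod p) = (n ! : ℕ) := by
    intro a n
    rw [Nat.ascFactorial_eq_prod_range, ← Finset.prod_range_add_one_eq_factorial]
    push_cast
    refine prod_congr rfl fun i _ => ?_
    simp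
    ring
  have hAm : ((A : ℕ) : ZMod p) = ((2 * g + 2)! : ℕ) := by
    have := hasc 1 (2 * g + 2)
    rwa [one_mul] at this
  have hBm : ((B : ℕ) : ZMod p) = ((2 * g)! : ℕ) := hasc 2 (2 * g)
  have hCm : ((C : ℕ) : ZMod p) = (g ! : ℕ) := by
    have := hasc 1 g
    rwa [one_mul] at this
  have key : (C * (2 * g + 2)! ^ 2 : ℕ) * s (g + 1) = (A * B * (g + 1)! : ℕ) := by
    unfold s
    rw [f6, f3, show 2 * (g + 1) = 2 * g + 2 by ring]
    have hp0 : (p : ℚ) ≠ 0 := by exact_mod_cast hpr.ne_zero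
    have hC0 : (C : ℚ) ≠ 0 := by
      exact_mod_cast (Nat.ascFactorial_pos _ _).ne'
    have hF0 : (((2 * g + 2)! : ℕ) : ℚ) ≠ 0 := by exact_mod_cast (Nat.factorial_ne_zero _)
    have hp1 : 2 * (((g + 1 : ℕ)) : ℚ) + 1 = p := by rw [hh]; push_cast; ring
    rw [hp1]
    push_cast
    field_simp
  have hnd : ¬ p ∣ C * (2 * g + 2)! ^ 2 := by
    intro hd
    rcases hpr.dvd_mul.mp hd with h1 | h1
    · have h2 : ((C : ℕ) : ZMod p) = 0 := (ZMod.natCast_eq_zero_iff _ _).mpr h1
      rw [hCm] at h2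
      exact hfac g (by omega) ((ZMod.natCast_eq_zero_iff _ _).mp h2)
    · exact hfac _ (by omega) (hpr.dvd_of_dvd_pow h1)
  have hmem : s (g + 1) ∈ Zp p := mem_of_mul hnd (by rw [key]; exact nat_mem _)
  refine ⟨hmem, ?_⟩
  have k2 := congrArg (R p) key
  rw [R_mul (nat_mem _) hmem, R_nat, R_nat] at k2
  push_cast at k2
  rw [hAm, hBm, hCm] at k2
  have w : (((2 * g + 2)! : ℕ) : ZMod p) = -1 := by
    have := ZMod.wilsons_lemma p
    rwa [show p - 1 = 2 * g + 2 by omega] at this
  have w2 : (((2 * g + 2)! : ℕ) : ZMod p) = 2 * (((2 * g)! : ℕ) : ZMod p) := by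
    rw [Nat.factorial_succ, Nat.factorial_succ]
    have hp1 : 2 * (g : ZMod p) + 3 = 0 := by
      have : ((2 * g + 3 : ℕ) : ZMod p) = (p : ZMod p) := by
        congr 1; omega
      rw [ZMod.natCast_self] at this
      push_cast at this
      exact this
    push_cast
    linear_combination (2 * (g : ZMod p)) * (((2 * g)! : ℕ) : ZMod p) * hp1
  have w3 : (((g + 1)! : ℕ) : ZMod p) * 2 = - ((g ! : ℕ) : ZMod p) := by
    rw [Nat.factorial_succ]
    have hp1 : 2 * (g : ZMod p) + 3 = 0 := by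
      have : ((2 * g + 3 : ℕ) : ZMod p) = (p : ZMod p) := by
        congr 1; omega
      rw [ZMod.natCast_self] at this
      push_cast at this
      exact this
    push_cast
    linear_combination ((g ! : ℕ) : ZMod p) * hp1
  have hg0 : ((g ! : ℕ) : ZMod p) ≠ 0 := by
    intro h0
    exact hfac g (by omega) ((ZMod.natCast_eq_zero_iff _ _).mp h0)
  apply mul_left_cancel₀ hg0
  rw [w] at k2 w2
  -- k2 : g! * (-1)^2 * R s = (-1) * (2g)! * (g+1)!
  linear_combination 4 * k2 + (2 * (((g + 1)! : ℕ) : ZMod p)) * w2 + w3 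

omit hp in
lemma odd_ne {h k : ℕ} (hh : p = 2 * h + 1) (hk : k < 2 * h) (hne : k + 1 ≠ h) :
    ¬ p ∣ 2 * k + 3 := by
  rintro ⟨c, hc⟩
  have hc2 : c < 2 := by
    by_contra hcon
    have : p * 2 ≤ p * c := Nat.mul_le_mul_left _ (by omega)
    omega
  interval_cases c <;> omega

lemma T_mem {h : ℕ} (hh : p = 2 * h + 1) (h2 : 2 ≤ h) (k : ℕ) (hk : k ≤ 2 * h) :
    T k ∈ Zp p := by
  have hpr := hp.out
  have h5 : 5 ≤ p := by omega
  have n2 : ¬ p ∣ 2 := fun hd => absurd (Nat.le_of_dvd (by norm_num) hd) (by omega)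
  have n3 : ¬ p ∣ 3 := fun hd => absurd (Nat.le_of_dvd (by norm_num) hd) (by omega)
  have n18 : ¬ p ∣ 18 := fun hd => by
    rw [show 18 = 2 * (3 * 3) by norm_num] at hd
    rcases hpr.dvd_mul.mp hd with h1 | h1
    · exact n2 h1
    · rcases hpr.dvd_mul.mp h1 with h1 | h1 <;> exact n3 h1
  have n108 : ¬ p ∣ 108 := fun hd => by
    rw [show 108 = 2 * (3 * 18) by norm_num] at hd
    rcases hpr.dvd_mul.mp hd with h1 | h1
    · exact n2 h1
    · rcases hpr.dvd_mul.mp h1 with h1 | h1
      · exact n3 h1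
      · exact n18 h1
  induction k with
  | zero =>
    rw [T_zero, one_div]
    exact_mod_cast inv_nat_mem (p := p) n2
  | succ k ih =>
    have ih' := ih (by omega)
    by_cases hc : k + 1 = h
    · rw [T, hc, div_eq_mul_inv]
      refine (Zp p).mul_mem (s_mid hh h2).1 ?_
      have : ¬ p ∣ 108 ^ h := fun hd => n108 (hpr.dvd_of_dvd_pow hd)
      exact_mod_cast inv_nat_mem (p := p) this
    · have hn : ¬ p ∣ 18 * (2 * k + 3) * (k + 1) := by
        intro hd
        rcases hpr.dvd_mul.mp hd with h1 | h1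
        · rcases hpr.dvd_mul.mp h1 with h1 | h1
          · exact n18 h1
          · exact odd_ne hh (by omega) hc h1
        · exact absurd (Nat.le_of_dvd (by omega) h1) (by omega)
      refine mem_of_mul hn ?_
      push_cast
      rw [T_rec k]
      have : ((6 * (k : ℚ) + 1) * (6 * k + 5)) = (((6 * k + 1) * (6 * k + 5) : ℕ) : ℚ) := by
        push_cast; ring
      rw [this]
      exact (Zp p).mul_mem (nat_mem _) ih'


/-- `Legendre symbol (3/p)` via Euler's criterion -/
lemma pow_mid {h : ℕ} (hh : p = 2 * h + 1) (h2 : 2 ≤ h) :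
    (108 : ZMod p) ^ h = (if p % 12 = 1 ∨ p % 12 = 11 then 1 else -1) := by
  have hpr := hp.out
  have h5 : 5 ≤ p := by omega
  have h2' : (2 : ZMod p) ≠ 0 := by
    have := natCast_ne (p := p) (n := 2) (by norm_num) (by omega); exact_mod_cast this
  have h3' : (3 : ZMod p) ≠ 0 := by
    have := natCast_ne (p := p) (n := 3) (by norm_num) (by omega); exact_mod_cast this
  have h6 : (6 : ZMod p) ≠ 0 := by
    have := mul_ne_zero h2' h3'
    norm_num at this
    exact this
  have e36 : (36 : ZMod p) ^ h = 1 := by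
    rw [show (36 : ZMod p) = 6 ^ 2 by norm_num, ← pow_mul, show 2 * h = p - 1 by omega]
    exact ZMod.pow_card_sub_one_eq_one h6
  have e3 : ((legendreSym p 3 : ℤ) : ZMod p) = (3 : ZMod p) ^ h := by
    rw [legendreSym.eq_pow, show p / 2 = h by omega]; norm_num
  have hodd : Odd p := ⟨h, hh⟩
  have e4 : legendreSym p 3 = (if p % 12 = 1 ∨ p % 12 = 11 then 1 else -1) := by
    rw [jacobiSym.legendreSym.to_jacobiSym]
    have h3odd : Odd 3 := by decide
    have hm : p % 4 = 1 ∨ p % 4 = 3 := by omega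
    have hm3 : p % 3 = 1 ∨ p % 3 = 2 := by
      have : ¬ 3 ∣ p := fun hd => by
        have := (Nat.prime_dvd_prime_iff_eq Nat.prime_three hpr).mp hd
        omega
      omega
    have q : jacobiSym ((3 : ℕ) : ℤ) p = if p % 4 = 1 then jacobiSym (p : ℤ) 3 else - jacobiSym (p : ℤ) 3 := by
      rcases hm with hm | hm
      · rw [if_pos hm]
        exact jacobiSym.quadratic_reciprocity_one_mod_four' h3odd hm
      · rw [if_neg (by omega)]
        exact jacobiSym.quadratic_reciprocity_three_mod_four (by norm_num) hm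
    have r : jacobiSym (p : ℤ) 3 = if p % 3 = 1 then 1 else -1 := by
      rw [jacobiSym.mod_left]
      rcases hm3 with hm3 | hm3
      · rw [if_pos hm3]
        have : ((p : ℤ) % ((3 : ℕ) : ℤ)) = 1 := by omega
        rw [this]; norm_num
      · rw [if_neg (by omega)]
        have : ((p : ℤ) % ((3 : ℕ) : ℤ)) = 2 := by omega
        rw [this]; norm_num
    have q' := q
    rw [r] at q'
    rw [show ((3 : ℤ)) = ((3 : ℕ) : ℤ) by norm_num, q']
    split_ifs <;> first | rfl | omega
  rw [show (108 : ZMod p) = 36 * 3 by norm_num, mul_pow, e36, one_mul, ← e3, e4]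
  split_ifs <;> norm_num

lemma main {h m n : ℕ} (hh : p = 2 * h + 1) (h2 : 2 ≤ h) (hmn : m + n = h) (hn : Even n)
    (hm : (6 * (m : ZMod p) + 1) * (6 * m + 5) = 0) :
    ∑ k ∈ range (h + 1 + h), R p (T k) * (4 * (2 * m + 1)) =
      2 * (-1) ^ m - (2 * m + 1) * (if p % 12 = 1 ∨ p % 12 = 11 then 1 else -1) := by
  have hpr := hp.out
  have h5 : 5 ≤ p := by omega
  have h2' : (2 : ZMod p) ≠ 0 := by
    have := natCast_ne (p := p) (n := 2) (by norm_num) (by omega); exact_mod_cast this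
  have h3' : (3 : ZMod p) ≠ 0 := by
    have := natCast_ne (p := p) (n := 3) (by norm_num) (by omega); exact_mod_cast this
  have hh' : 2 * (h : ZMod p) + 1 = 0 := by
    have : ((2 * h + 1 : ℕ) : ZMod p) = (p : ZMod p) := by rw [← hh]
    rw [ZMod.natCast_self] at this
    push_cast at this
    exact this
  have hmn' : (h : ZMod p) = m + n := by rw [← hmn]; push_cast; ring
  set τ : ℕ → ZMod p := fun k => R p (T k) with hτ
  have τ0 : τ 0 * 2 = 1 := by
    have e : T 0 * ((2 : ℕ) : ℚ) = ((1 : ℕ) : ℚ) := by rw [T_zero]; norm_num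
    have := congrArg (R p) e
    rw [R_mul (T_mem hh h2 0 (by omega)) (nat_mem _), R_nat, R_nat] at this
    push_cast at this
    exact this
  have rcc : ∀ k, k < 2 * h → (2 * (k : ZMod p) + 3) * (k + 1) * τ (k + 1) =
      2 * (k - m) * (k + m + 1) * τ k := by
    intro k hk
    have e : (((18 * (2 * k + 3) * (k + 1) : ℕ)) : ℚ) * T (k + 1) =
      (((6 * k + 1) * (6 * k + 5) : ℕ) : ℚ) * T k := by
      have := T_rec k
      push_cast
      exact this
    have := congrArg (R p) e
    rw [R_mul (nat_mem _) (T_mem hh h2 _ (by omega)), R_mul (nat_mem _) (T_mem hh h2 _ (by omega)),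
      R_nat, R_nat] at this
    push_cast at this
    have h18 : (2 * 3 * 3 : ZMod p) ≠ 0 := mul_ne_zero (mul_ne_zero h2' h3') h3'
    apply mul_left_cancel₀ h18
    simp only [hτ]
    linear_combination this + R p (T k) * hm
  have cne : ∀ k : ℕ, k < 2 * h → ((k : ZMod p) + 1 ≠ 0) := by
    intro k hk
    have := natCast_ne (p := p) (n := k + 1) (by omega) (by omega)
    exact_mod_cast this
  have one_ne : ∀ k : ℕ, k < 2 * h → k + 1 ≠ h → (2 * (k : ZMod p) + 3 ≠ 0) := by
    intro k hk hk2 h0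
    have : ((2 * k + 3 : ℕ) : ZMod p) = 0 := by push_cast; exact h0
    exact odd_ne hh hk hk2 ((ZMod.natCast_eq_zero_iff _ _).mp this)
  -- bounds on m, n
  have hm1 : m < h := by
    rcases Nat.lt_or_ge m h with h1 | h1
    · exact h1
    · exfalso
      have : (m : ZMod p) = h := by congr 1; omega
      have e : (6 * (m : ZMod p) + 1) * (6 * m + 5) = -4 := by
        rw [this]
        linear_combination (9 * (2 * (h : ZMod p) + 1)) * hh'
      rw [e] at hm
      have h4 : (2 * 2 : ZMod p) ≠ 0 := mul_ne_zero h2' h2'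
      apply h4
      linear_combination (-1) * hm
  -- part 1
  set c : ZMod p := 2⁻¹ with hc
  have hc2 : 2 * c = 1 := by rw [hc]; exact mul_inv_cancel₀ h2'
  have P1 := chu_rec m ((m : ZMod p) + 1) (1 + c) τ (fun k hk => by
    have := rcc k (by omega)
    apply mul_left_cancel₀ h2'
    linear_combination this + ((k : ZMod p) + 1) * τ (k + 1) * hc2) (fun k hk => cne k (by omega))
  rw [show (1 + c - ((m : ZMod p) + 1)) = c - m by ring, rf_neg (c - (m : ZMod p)),
    show (1 - (c - (m : ZMod p)) - m) = c by linear_combination (-1) * hc2] at P1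
  have P1a : c * rf (1 + c) m = rf c m * (c + m) := by
    rw [← rf_succ, rf_succ', add_comm 1 c]
  have rfne : ∀ l, l ≤ h → rf c l ≠ 0 := by
    intro l hl
    unfold rf
    rw [prod_ne_zero_iff]
    intro i hi h0
    have hi' : i < l := mem_range.mp hi
    have e : ((2 * i + 1 : ℕ) : ZMod p) = 0 := by
      push_cast
      linear_combination 2 * h0 - hc2
    exact absurd (Nat.le_of_dvd (by omega) ((ZMod.natCast_eq_zero_iff _ _).mp e)) (by omega)
  have cc : (2 * m + 1 : ZMod p) ≠ 0 := by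
    intro h0
    have e : ((2 * m + 1 : ℕ) : ZMod p) = 0 := by push_cast; exact h0
    exact absurd (Nat.le_of_dvd (by omega) ((ZMod.natCast_eq_zero_iff _ _).mp e)) (by omega)
  have Q1 : (∑ k ∈ range (m + 1), τ k) * (2 * (2 * m + 1)) = (-1) ^ m := by
    have hne := rfne m (by omega)
    apply mul_left_cancel₀ hne
    -- rf c m * S * 2(2m+1) = 4 * rf c m * (c+m) * S = 4 c rf(1+c) m S = 2 rf(1+c) m S
    linear_combination 2 * P1 - 4 * (∑ k ∈ range (m + 1), τ k) * P1a +
      (2 * (∑ k ∈ range (m + 1), τ k) * rf (1 + c) m - 2 * rf c m * (∑ k ∈ range (m + 1), τ k)) * hc2 +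
      (-1) ^ m * rf c m * τ0
  -- middle zeros
  have Z1 : ∀ k, m < k → k < h → τ k = 0 := by
    intro k hk1 hk2
    obtain ⟨j, rfl⟩ : ∃ j, k = m + 1 + j := ⟨k - (m + 1), by omega⟩
    induction j with
    | zero =>
      have := rcc m (by omega)
      rw [sub_self, mul_zero, zero_mul, zero_mul] at this
      rcases mul_eq_zero.mp this with h0 | h0
      · rcases mul_eq_zero.mp h0 with h0 | h0
        · exact absurd h0 (one_ne m (by omega) (by omega))
        · exact absurd h0 (cne m (by omega))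
      · exact h0
    | succ j ih =>
      have := rcc (m + 1 + j) (by omega)
      rw [ih (by omega) (by omega), mul_zero] at this
      rcases mul_eq_zero.mp this with h0 | h0
      · rcases mul_eq_zero.mp h0 with h0 | h0
        · exact absurd h0 (one_ne _ (by omega) (by omega))
        · exact absurd h0 (cne _ (by omega))
      · exact h0
  -- part 2
  have hrec2 : ∀ j, j < h → (c + j) * (j + 1) * τ (h + (j + 1)) =
      ((j : ZMod p) - n) * (n + j) * τ (h + j) := by
    intro j hj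
    have := rcc (h + j) (by omega)
    push_cast at this
    rw [show h + j + 1 = h + (j + 1) by ring] at this
    apply mul_left_cancel₀ h2'
    have hm3 : (m : ZMod p) = h - n := by rw [hmn']; ring
    rw [hm3] at this
    apply mul_left_cancel₀ h2'
    linear_combination 2 * this + 2 * ((j : ZMod p) + 1) * τ (h + (j + 1)) * hc2 -
       (((2 * (h : ZMod p) + 1) + 4 * j + 4 - 1) * τ (h + (j + 1))) * hh' +
       (4 * (j : ZMod p) + 4 * n) * τ (h + j) * hh' 
  have P2 := chu_rec n (n : ZMod p) c (fun j => τ (h + j)) (fun k hk => hrec2 k (by omega))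
    (fun k hk => cne k (by omega))
  rw [rf_neg (c - (n : ZMod p)), show (1 - (c - (n : ZMod p)) - n) = c by linear_combination (-1) * hc2] at P2
  have Q2 : (∑ j ∈ range (n + 1), τ (h + j)) = (-1) ^ n * τ h := by
    apply mul_left_cancel₀ (rfne n (by omega))
    linear_combination P2
  have Z2 : ∀ j, n < j → j ≤ h → τ (h + j) = 0 := by
    intro k hk1 hk2
    obtain ⟨j, rfl⟩ : ∃ j, k = n + 1 + j := ⟨k - (n + 1), by omega⟩
    have hcj : ∀ j : ℕ, j < h → c + j ≠ 0 := by
      intro j hj h0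
      have e : ((2 * j + 1 : ℕ) : ZMod p) = 0 := by
        push_cast
        linear_combination 2 * h0 - hc2
      exact absurd (Nat.le_of_dvd (by omega) ((ZMod.natCast_eq_zero_iff _ _).mp e)) (by omega)
    induction j with
    | zero =>
      have := hrec2 n (by omega)
      rw [sub_self, zero_mul, zero_mul] at this
      rcases mul_eq_zero.mp this with h0 | h0
      · rcases mul_eq_zero.mp h0 with h0 | h0
        · exact absurd h0 (hcj n (by omega))
        · exact absurd h0 (cne n (by omega))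
      · exact h0
    | succ j ih =>
      have := hrec2 (n + 1 + j) (by omega)
      rw [ih (by omega) (by omega), mul_zero] at this
      rcases mul_eq_zero.mp this with h0 | h0
      · rcases mul_eq_zero.mp h0 with h0 | h0
        · exact absurd h0 (hcj _ (by omega))
        · exact absurd h0 (cne _ (by omega))
      · exact h0
  have S1 : ∑ k ∈ range h, τ k = ∑ k ∈ range (m + 1), τ k := by
    rw [show h = (m + 1) + (h - (m + 1)) by omega, sum_range_add]
    rw [sum_eq_zero (s := range (h - (m + 1))), add_zero]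
    intro i hi
    have := mem_range.mp hi
    exact Z1 _ (by omega) (by omega)
  have S2 : ∑ j ∈ range (h + 1), τ (h + j) = τ h := by
    rw [show h + 1 = (n + 1) + (h - n) by omega, sum_range_add]
    rw [sum_eq_zero (s := range (h - n)), add_zero, Q2, hn.neg_one_pow, one_mul]
    intro i hi
    have := mem_range.mp hi
    exact Z2 _ (by omega) (by omega)
  obtain ⟨hs1, hs2⟩ := s_mid hh h2
  have hTh : τ h * (108 : ZMod p) ^ h = R p (s h) := by
    have e : s h = T h * ((108 ^ h : ℕ) : ℚ) := by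
      unfold T; push_cast; field_simp
    rw [e, R_mul (T_mem hh h2 h (by omega)) (nat_mem _), R_nat]
    push_cast
    rfl
  rw [← sum_mul, show h + 1 + h = h + (h + 1) by ring, sum_range_add]
  change (∑ k ∈ range h, τ k + ∑ j ∈ range (h + 1), τ (h + j)) * (4 * (2 * m + 1)) = _
  rw [S1, S2]
  rw [pow_mid hh h2] at hTh
  have hsq : (if p % 12 = 1 ∨ p % 12 = 11 then (1 : ZMod p) else -1) *
    (if p % 12 = 1 ∨ p % 12 = 11 then (1 : ZMod p) else -1) = 1 := by split_ifs <;> norm_num
  set ε : ZMod p := if p % 12 = 1 ∨ p % 12 = 11 then 1 else -1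
  have hTh2 : τ h * 4 = - ε := by
    linear_combination ε * 4 * hTh + ε * hs2 - (4 * τ h) * hsq
  linear_combination 2 * Q1 + (2 * (m : ZMod p) + 1) * hTh2

/-- Positive answer to Q1: for every prime `p > 3`, with `S_p = ∑_{k=1}^{p-1} s_k / 108^k`, one has
`S_p ≡ 0 (mod p)` if `p ≡ 1, 11 (mod 12)` and `S_p ≡ -1 (mod p)` if `p ≡ 5, 7 (mod 12)`. -/
theorem result (p : ℕ) (hp : p.Prime) (h3 : 3 < p) :
    ((p % 12 = 1 ∨ p % 12 = 11) → Cong p 1 (∑ k ∈ Icc 1 (p - 1), s k / 108 ^ k) 0) ∧
    ((p % 12 = 5 ∨ p % 12 = 7) → Cong p 1 (∑ k ∈ Icc 1 (p - 1), s k / 108 ^ k) (-1)) := by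
  have : Fact p.Prime := ⟨hp⟩
  have hodd : p % 2 = 1 := by
    rcases hp.eq_two_or_odd with h | h <;> omega
  have h3' : p % 3 ≠ 0 := by
    intro h0
    have := (Nat.prime_dvd_prime_iff_eq Nat.prime_three hp).mp (Nat.dvd_of_mod_eq_zero h0)
    omega
  obtain ⟨h, hh⟩ : ∃ h, p = 2 * h + 1 := ⟨p / 2, by omega⟩
  have h2 : 2 ≤ h := by omega
  have hsum : ∑ k ∈ range (h + 1 + h), T k = 1 / 2 + ∑ k ∈ Icc 1 (p - 1), s k / 108 ^ k := by
    rw [show h + 1 + h = (2 * h) + 1 by ring, sum_range_succ', T_zero, add_comm]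
    congr 1
    rw [show Icc 1 (p - 1) = Ico 1 (2 * h + 1) by ext; simp; omega, sum_Ico_eq_sum_range]
    refine sum_congr (by simp) fun k _ => ?_
    rw [add_comm 1 k, T]
  have hmem : ∑ k ∈ Icc 1 (p - 1), s k / 108 ^ k ∈ Zp p := by
    refine (Zp p).sum_mem fun k hk => ?_
    have := mem_Icc.mp hk
    exact T_mem hh h2 k (by omega)
  set S := ∑ k ∈ Icc 1 (p - 1), s k / 108 ^ k
  have h2' : (2 : ZMod p) ≠ 0 := by
    have := natCast_ne (p := p) (n := 2) (by norm_num) (by omega); exact_mod_cast this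
  have h8' : (2 * 2 * 2 : ZMod p) ≠ 0 := mul_ne_zero (mul_ne_zero h2' h2') h2'
  have hR : ∑ k ∈ range (h + 1 + h), R p (T k) * 2 = 1 + 2 * R p S := by
    have e : 2 * (∑ k ∈ range (h + 1 + h), T k) = 1 + 2 * S := by rw [hsum]; ring
    have e1 : ∑ k ∈ range (h + 1 + h), T k ∈ Zp p :=
      (Zp p).sum_mem fun k hk => T_mem hh h2 k (by have := mem_range.mp hk; omega)
    have e2 := congrArg (R p) e
    have n2 := nat_mem (p := p) 2
    have r2 := R_nat (p := p) 2
    push_cast at n2 r2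
    rw [R_mul n2 e1, R_add (Zp p).one_mem ((Zp p).mul_mem n2 hmem), R_mul n2 hmem,
      R_sum _ _ (fun k hk => T_mem hh h2 k (by have := mem_range.mp hk; omega)), R_one, r2] at e2
    rw [← sum_mul]
    linear_combination e2
  have fin : ∀ x : ℚ, x ∈ Zp p → R p S = R p x → Cong p 1 S x := fun x hx e =>
    cong_of_I ((R_eq_iff hmem hx).mp e)
  have hp0 : ((p : ℕ) : ZMod p) = 0 := ZMod.natCast_self p
  rcases (show p % 6 = 1 ∨ p % 6 = 5 by omega) with h6 | h6
  · obtain ⟨m, hm⟩ : ∃ m, p = 6 * m + 1 := ⟨p / 6, by omega⟩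
    have hm0 : 6 * (m : ZMod p) + 1 = 0 := by
      have : ((6 * m + 1 : ℕ) : ZMod p) = 0 := by rw [← hm]; exact hp0
      push_cast at this; exact this
    have M := main (p := p) (h := h) (m := m) (n := 2 * m) hh h2 (by omega) (even_two_mul m)
      (by rw [hm0, zero_mul])
    rw [← sum_mul] at M hR
    refine ⟨fun hc => fin 0 (Zp p).zero_mem ?_, fun hc => fin (-1) ((Zp p).neg_mem (Zp p).one_mem) ?_⟩
    · have he : Even m := by rw [Nat.even_iff]; omega
      rw [if_pos hc, he.neg_one_pow] at M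
      rw [R_zero]
      apply mul_left_cancel₀ h8'
      linear_combination 3 * M - 6 * (2 * (m : ZMod p) + 1) * hR + (2 - (2 * (1 + 2 * R p S) + 1) - 2) * hm0
    · have he : Odd m := by rw [Nat.odd_iff]; omega
      rw [if_neg (by omega), he.neg_one_pow] at M
      rw [R_neg, R_one]
      apply mul_left_cancel₀ h8'
      linear_combination 3 * M - 6 * (2 * (m : ZMod p) + 1) * hR + (-1 - 4 * R p S) * hm0
  · obtain ⟨m, hm⟩ : ∃ m, p = 6 * m + 5 := ⟨p / 6, by omega⟩
    have hm0 : 6 * (m : ZMod p) + 5 = 0 := by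
      have : ((6 * m + 5 : ℕ) : ZMod p) = 0 := by rw [← hm]; exact hp0
      push_cast at this; exact this
    have M := main (p := p) (h := h) (m := m) (n := 2 * m + 2) hh h2 (by omega) ⟨m + 1, by ring⟩
      (by rw [hm0, mul_zero])
    rw [← sum_mul] at M hR
    refine ⟨fun hc => fin 0 (Zp p).zero_mem ?_, fun hc => fin (-1) ((Zp p).neg_mem (Zp p).one_mem) ?_⟩
    · have he : Odd m := by rw [Nat.odd_iff]; omega
      rw [if_pos hc, he.neg_one_pow] at M
      rw [R_zero]
      apply mul_left_cancel₀ h8'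
      linear_combination (-3) * M + 6 * (2 * (m : ZMod p) + 1) * hR + (3 + 4 * R p S) * hm0
    · have he : Even m := by rw [Nat.even_iff]; omega
      rw [if_neg (by omega), he.neg_one_pow] at M
      rw [R_neg, R_one]
      apply mul_left_cancel₀ h8'
      linear_combination (-3) * M + 6 * (2 * (m : ZMod p) + 1) * hR + (1 + 4 * R p S) * hm0

end Pool.Agent.Q34.WD.D2c11a
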